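import Pool.Agent.W206.YP.Stm
import Pool.Agent.W206.CT.FQ
import Pool.Agent.W206.CT.CO

set_option autoImplicit false

namespace Pool.Agent.W358.YP.FQ

open MvPolynomial Pool.Agent.W206.CT Pool.Agent.W206.CT.FQ
open Pool.Agent.W206.YP

/-- the embedding of `k(y)` sending the `y_i` to the `x_i` -/
lemma exHom' (k L L2 I : Type) [Field k] [Field L] [Algebra k L] [Field L2] [Algebra k L2]
    (y : I → L) (hy : AlgebraicIndependent k y) (x : I → L2) (hx : AlgebraicIndependent k x)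
    (s : Set L) (hs : Set.range y = s) :
    ∃ φ0 : IntermediateField.adjoin k s →+* L2,
      (∀ (i : I) (h : y i ∈ IntermediateField.adjoin k s), φ0 ⟨y i, h⟩ = x i) ∧
      ∀ a : k, φ0 (algebraMap k _ a) = algebraMap k L2 a := by
  subst hs
  refine ⟨(((IntermediateField.adjoin k (Set.range x)).val.comp
    hx.aevalEquivField.toAlgHom).comp hy.aevalEquivField.symm.toAlgHom).toRingHom,
    fun i hi => ?_, fun a => ?_⟩
  · have h1 : hy.aevalEquivField.symm ⟨y i, hi⟩ = algebraMap _ _ (X i : MvPolynomial I k) := by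
      rw [AlgEquiv.symm_apply_eq]
      apply Subtype.ext
      have := hy.aevalEquivField_algebraMap_apply_coe (X i)
      rw [aeval_X] at this
      exact this.symm
    change ((hx.aevalEquivField (hy.aevalEquivField.symm ⟨y i, hi⟩) :
      IntermediateField.adjoin k (Set.range x)) : L2) = x i
    rw [h1]
    have := hx.aevalEquivField_algebraMap_apply_coe (X i)
    rw [aeval_X] at this
    exact this
  · exact (((IntermediateField.adjoin k (Set.range x)).val.comp
      hx.aevalEquivField.toAlgHom).comp hy.aevalEquivField.symm.toAlgHom).commutes a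

/-- evaluation and homomorphisms -/
lemma aeval_hom' {K ι E L : Type} [Field K] [Field E] [Field L] [Algebra K L] (c : K →+* E)
    (ψ : E →+* L) (hc : ∀ a, ψ (c a) = algebraMap K L a)
    (z : ι → E) (g : MvPolynomial ι K) :
    aeval (fun j => ψ (z j)) g = ψ (eval₂ c z g) := by
  rw [aeval_def, hom_eval₂]
  have h1 : algebraMap K L = ψ.comp c := RingHom.ext fun a => (hc a).symm
  rw [h1]

/-- relations are transferred by generic points -/
lemma transfer {G L L2 : Type} [Field L] [Algebra Qb L] [Field L2] [Algebra Qb L2]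
    (κ : G → Bool) (ω : G × Fin 3 → L) (ω2 : G × Fin 3 → L2)
    (hrel : ∀ g : MvPolynomial (G × Fin 3) Qb, aeval ω g = 0 → aeval ω2 g = 0) :
    (Gate κ ω → Gate κ ω2) ∧ ∀ T, RelT ω T → RelT ω2 T := by
  refine ⟨fun h g => ?_, fun T hT t ht => ?_⟩
  · have h1 := h g
    have h2 := hrel (X (g, 2) - if κ g then X (g, 0) + X (g, 1) else X (g, 0) * X (g, 1)) (by
      split_ifs with hk
      · rw [if_pos hk] at h1
        simp [h1]
      · rw [if_neg hk] at h1
        simp [h1])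
    split_ifs with hk
    · rw [if_pos hk] at h2
      simpa [sub_eq_zero] using h2
    · rw [if_neg hk] at h2
      simpa [sub_eq_zero] using h2
  · rcases hT t ht with ⟨c, hc, h1⟩ | ⟨u, hu, F, hF, h1⟩
    · refine Or.inl ⟨c, hc, ?_⟩
      have h2 := hrel (X t - C c) (by simp [h1])
      simpa [sub_eq_zero] using h2
    · refine Or.inr ⟨u, hu, F, hF, ?_⟩
      have hgen : ∀ (L3 : Type) [Field L3] [Algebra Qb L3] (ω3 : G × Fin 3 → L3),
          aeval ω3 (aeval ![(X t : MvPolynomial (G × Fin 3) Qb), X u] F) =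
            aeval ![ω3 t, ω3 u] F := by
        intro L3 _ _ ω3
        rw [← AlgHom.comp_apply, comp_aeval]
        congr 2
        funext i
        fin_cases i <;> simp
      have h2 := hrel (aeval ![(X t : MvPolynomial (G × Fin 3) Qb), X u] F) (by
        rw [hgen]; exact h1)
      rw [hgen] at h2
      exact h2

/-- finitely many maximal atypical subvarieties over `ℂ` of a product of gates (corrected: the
`Qb`-structure of `L` is the one given by the `ℂ`-structure) -/
def FinC' (G : Type) [Fintype G] (κ : G → Bool) : Prop :=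
  ∃ S : Finset (Ideal (MvPolynomial (G × Fin 3) ℂ)),
    (∀ p ∈ S, ∃ (L : Type) (_ : Field L) (_ : Algebra ℂ L) (_ : Algebra Qb L)
      (_ : ∀ c : Qb, algebraMap Qb L c = algebraMap ℂ L (c : ℂ)) (ω : G × Fin 3 → L),
      Pool.Agent.W206.YP.AtypPt ℂ κ ω ∧
      p = RingHom.ker (aeval ω : MvPolynomial (G × Fin 3) ℂ →ₐ[ℂ] L)) ∧
    ∀ (L : Type) [Field L] [Algebra ℂ L] [Algebra Qb L]
      (_ : ∀ c : Qb, algebraMap Qb L c = algebraMap ℂ L (c : ℂ)) (ω : G × Fin 3 → L),
      Pool.Agent.W206.YP.AtypPt ℂ κ ω →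
      ∃ p ∈ S, p ≤ RingHom.ker (aeval ω : MvPolynomial (G × Fin 3) ℂ →ₐ[ℂ] L)

lemma downGen (K L ι : Type) [Field K] [Algebra K ℂ] [Field L] [Algebra ℂ L] [Algebra K L]
    [Fintype ι] (h : ∀ c : K, algebraMap K L c = algebraMap ℂ L (algebraMap K ℂ c))
    (ω : ι → L) : (∀ m, TrGe ℂ ω m → TrGe K ω m) ∧
      ∀ f : MvPolynomial ι K, aeval ω (MvPolynomial.map (algebraMap K ℂ) f) = aeval ω f := by
  have hT : IsScalarTower K ℂ L := IsScalarTower.of_algebraMap_eq h
  refine ⟨fun m hm => ?_, fun f => MvPolynomial.aeval_map_algebraMap ℂ ω f⟩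
  obtain ⟨I, hI, _, hI3⟩ := t_co ℂ L ι ω
  exact trge_of_indep K ω I (hI.restrictScalars (algebraMap K ℂ).injective) m ((hI3 m).mp hm)

lemma upGen (K L ι : Type) [Field K] [Algebra K ℂ] [Field L] [Algebra K L] [Fintype ι]
    (ω : ι → L) (m : ℕ) (hm : TrGe K ω m) :
    ∃ (L2 : Type) (_ : Field L2) (_ : Algebra ℂ L2) (_ : Algebra K L2)
      (_ : ∀ c : K, algebraMap K L2 c = algebraMap ℂ L2 (algebraMap K ℂ c)) (ω2 : ι → L2),
      TrGe ℂ ω2 m ∧ ∀ g : MvPolynomial ι K, aeval ω2 g = 0 ↔ aeval ω g = 0 := by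
  obtain ⟨I, hI, hI2, hI3⟩ := t_co K L ι ω
  have hmI := (hI3 m).mp hm
  obtain ⟨L2, iF2, iA2, iC2, x, hx⟩ := exField I
  let _ : Algebra K L2 := ((algebraMap ℂ L2).comp (algebraMap K ℂ)).toAlgebra
  have hT : IsScalarTower K ℂ L2 := IsScalarTower.of_algebraMap_eq (fun _ => rfl)
  have hxQ : AlgebraicIndependent K x := hx.restrictScalars (algebraMap K ℂ).injective
  -- the embedding of `K(ω_I)`
  have hrange : Set.range (fun i : I => ω i) = ω '' (I : Set ι) := by
    ext y
    simp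
  obtain ⟨φ0, hφ0, hφ0'⟩ := exHom' K L L2 I (fun i : I => ω i) hI x hxQ _ hrange
  obtain ⟨E, iE, ψ, φ, j, hψj, hφj, hE⟩ := exLift _ L L2 φ0
  choose ω' hωE using fun i => hE (ω i) (hI2 i)
  let ω2 : ι → L2 := fun j => φ (ω' j)
  have hω2I : ∀ i : I, ω2 i = x i := by
    intro i
    have hmem : ω i ∈ IntermediateField.adjoin K (ω '' (I : Set ι)) :=
      IntermediateField.subset_adjoin _ _ ⟨i, i.2, rfl⟩
    have h1 : ω' i = j ⟨ω i, hmem⟩ := by
      apply ψ.injective
      rw [hωE, hψj]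
      rfl
    change φ (ω' i) = x i
    rw [h1, hφj]
    exact hφ0 i _
  have hrel : ∀ g : MvPolynomial ι K, aeval ω2 g = 0 ↔ aeval ω g = 0 := by
    intro g
    let c : K →+* E := j.comp (algebraMap K _)
    have h1 : aeval ω2 g = φ (eval₂ c ω' g) := aeval_hom' c φ (fun a => by
      change φ (j (algebraMap K _ a)) = _
      rw [hφj, hφ0']) ω' g
    have h2 : aeval ω g = ψ (eval₂ c ω' g) := by
      rw [← aeval_hom' c ψ (fun a => by
        change ψ (j (algebraMap K _ a)) = _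
        rw [hψj]
        rfl) ω' g]
      congr 2
      exact funext fun i => (hωE i).symm
    rw [h1, h2, map_eq_zero_iff _ φ.injective, map_eq_zero_iff _ ψ.injective]
  refine ⟨L2, iF2, iA2, inferInstance, fun c => rfl, ω2, ?_, hrel⟩
  refine trge_of_indep ℂ ω2 I ?_ m hmI
  have : (fun i : I => ω2 i) = x := funext hω2I
  rw [this]
  exact hx

/-- **FQ** (descent), corrected. -/
theorem main (G : Type) [Fintype G] (κ : G → Bool) (hC : FinC' G κ) : FinQ G κ := by
  obtain ⟨S, hS1, hS2⟩ := hC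
  classical
  refine ⟨S.image (fun p => p.comap (MvPolynomial.map (algebraMap Qb ℂ))), ?_, ?_⟩
  · intro q hq
    obtain ⟨p, hp, rfl⟩ := Finset.mem_image.mp hq
    obtain ⟨L, iF, iA, iAQ, iT, ω, ⟨hω, m, T, hm, hT, hd⟩, rfl⟩ := hS1 p hp
    obtain ⟨h1, h2⟩ := downGen Qb L (G × Fin 3) iT ω
    refine ⟨L, inferInstance, inferInstance, ω, ⟨hω, m, T, h1 m hm, hT, hd⟩, ?_⟩
    ext f
    simp only [Ideal.mem_comap, RingHom.mem_ker]
    rw [h2]
  · intro L _ _ ω ⟨hω, m, T, hm, hT, hd⟩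
    obtain ⟨L2, iF2, iA2, iQ2, h2, ω2, hm2, hrel⟩ := upGen Qb L (G × Fin 3) ω m hm
    obtain ⟨htg, htr⟩ := transfer κ ω ω2 (fun g => (hrel g).2)
    obtain ⟨p, hp, hle⟩ := hS2 L2 h2 ω2 ⟨htg hω, m, T, hm2, htr T hT, hd⟩
    refine ⟨_, Finset.mem_image.mpr ⟨p, hp, rfl⟩, fun f hf => ?_⟩
    have h1 := hle (Ideal.mem_comap.mp hf)
    rw [RingHom.mem_ker] at h1 ⊢
    have h3 := (downGen Qb L2 (G × Fin 3) h2 ω2).2 f
    exact (hrel f).mp (by rw [← h3]; exact h1)

end Pool.Agent.W358.YP.FQ
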